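import Pool.Agent.H64.EK.Targets
import Pool.Agent.H64.NLW.Uncond

/-!
# Row CPX: the sign conjecture in terms of the ranks, even dimension
-/

set_option autoImplicit false

open Matrix Pool.Agent.H64.CC Pool.Agent.H2.NL Pool.Agent.H2.KM Pool.Agent.H64.EV Pool.Agent.H64.EK

namespace Pool.Agent.H34.EK

open Pool.Agent.H64.NLW

private theorem idem_lin {K : Type} [Field K] {n : ℕ} (x : Matrix (Fin n) (Fin n) K)
    (hx : x * x = x) : IsIdempotentElem (Matrix.toLin' x) := by
  show Matrix.toLin' x * Matrix.toLin' x = Matrix.toLin' x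
  have h := Matrix.toLin'_mul x x
  rw [hx] at h
  exact h.symm

/-- the rank of an idempotent matrix is its trace -/
private theorem idem_rank {K : Type} [Field K] {n : ℕ} (x : Matrix (Fin n) (Fin n) K)
    (hx : x * x = x) : x.trace = (x.rank : K) := by
  have h2 := (LinearMap.IsIdempotentElem.isProj_range _ (idem_lin x hx)).trace
  rw [Matrix.trace_toLin'_eq] at h2
  rw [h2]
  rfl

private theorem idem_zero {K : Type} [Field K] [CharZero K] {n : ℕ}
    (x : Matrix (Fin n) (Fin n) K) (hx : x * x = x) (h : x.trace = 0) : x = 0 := by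
  have h1 : Matrix.toLin' x = 0 := by
    apply LinearMap.IsIdempotentElem.eq_zero_of_trace_eq_zero (idem_lin x hx)
    rw [Matrix.trace_toLin'_eq]
    exact h
  exact (map_eq_zero_iff _ (Matrix.toLin' (R := K)).injective).1 h1

theorem pf_CPX (hCPO : T_CPO) : T_CPX := by
  intro K _ _ W hW V L hL r m T S ε hε hid hvan hnum b hb
  set E : W.Hom T T := W.even T with hE
  set ρ : W.Hom T T := 1 - ε with hρ
  obtain ⟨F, hF⟩ : ∃ F : W.Hom T T, F = 1 - E := ⟨_, rfl⟩
  have hE2 : E * E = E := even_even W T
  have hEF : E * F = 0 := by rw [hF, mul_sub, mul_one, hE2, sub_self]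
  have hF2 : F * F = F := by
    rw [hF, mul_sub, mul_one, sub_mul, one_mul, hE2, sub_self, sub_zero]
  have hcε : E * ε = ε * E := even_comm W ε 0 (hW.calculus.cyc_deg T T 0 ε hε)
  have hcρ : E * ρ = ρ * E := by
    rw [hρ, mul_sub, sub_mul, hcε, mul_one, one_mul]
  have hcF : F * ρ = ρ * F := by
    rw [hF, mul_sub ρ 1 E, mul_one, sub_mul 1 E ρ, one_mul, hcρ]
  have hρ2 : ρ * ρ = ρ := by
    rw [hρ, mul_sub, mul_one, sub_mul, one_mul, hid, sub_self, sub_zero]
  have hst : W.str ρ = 2 * (E * ρ).trace - ρ.trace := str_eq_two W ρ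
  have htr : (F * ρ).trace = ρ.trace - (E * ρ).trace := by
    rw [hF, sub_mul, one_mul, Matrix.trace_sub]
  rw [hb, idem_rank ρ hρ2] at hst
  rw [idem_rank ρ hρ2] at htr
  constructor
  · intro hC
    have hFm : F ∈ W.cyc T T 0 := by
      rw [hF]
      exact Submodule.sub_mem _ (hW.calculus.one_mem T) hC
    have hFk : ∀ u, W.Vanishing S.toGenericIntersection u → W.ap F u = 0 := by
      intro u hu
      funext a
      show (F *ᵥ u) a = 0
      have h1 : (E *ᵥ u) a = (if Even (W.deg T a) then (1 : K) else 0) * u a :=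
        Matrix.mulVec_diagonal _ _ _
      rw [hF, Matrix.sub_mulVec, Matrix.one_mulVec, Pi.sub_apply, h1]
      by_cases hu0 : u a = 0
      · rw [hu0, mul_zero, sub_zero]
      · have h2 := hu.1 a hu0
        have h3 : Even (W.deg T a) := by
          rw [h2]
          exact S.even
        rw [if_pos h3, one_mul, sub_self]
    have h1 := hnum F hFm hFk
    have h2 : W.str (F * ρ) = 2 * (E * (F * ρ)).trace - (F * ρ).trace := str_eq_two W (F * ρ)
    rw [← mul_assoc, hEF, zero_mul, Matrix.trace_zero, mul_zero, zero_sub] at h2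
    rw [h2, neg_eq_zero] at h1
    rw [h1] at htr
    have h3 : (b : K) = (ρ.rank : K) := by linear_combination hst + 2 * htr
    exact_mod_cast h3.symm
  · intro hr
    rw [hr] at hst htr
    have h1 : (F * ρ).trace = 0 := by
      have h2 : (2 : K) * (F * ρ).trace = 0 := by linear_combination 2 * htr + hst
      rcases mul_eq_zero.1 h2 with h3 | h3
      · exact absurd h3 two_ne_zero
      · exact h3
    have h2 : (F * ρ) * (F * ρ) = F * ρ := by
      calc (F * ρ) * (F * ρ) = F * (ρ * F) * ρ := by simp only [Matrix.mul_assoc]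
        _ = F * (F * ρ) * ρ := by rw [hcF]
        _ = (F * F) * (ρ * ρ) := by simp only [Matrix.mul_assoc]
        _ = F * ρ := by rw [hF2, hρ2]
    have h3 : F * ρ = 0 := idem_zero _ h2 h1
    refine hCPO K W hW V L hL r m T S ε hε hvan ?_
    intro a b' hab
    by_contra hodd
    have h4 : (E * ρ) a b' = (if Even (W.deg T a) then (1 : K) else 0) * ρ a b' := by
      rw [hE]
      exact Matrix.diagonal_mul _ _ _ _
    rw [if_neg hodd, zero_mul] at h4
    have h5 : (F * ρ) a b' = ρ a b' := by
      rw [hF, sub_mul, one_mul, Matrix.sub_apply, h4, sub_zero]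
    rw [h3] at h5
    exact hab h5.symm

end Pool.Agent.H34.EK
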