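import Pool.Agent.H64.EK.Targets

/-!
# Row XPA: the powers of a correspondence, symmetrized or antisymmetrized, are algebraic
-/

set_option autoImplicit false

open Matrix Pool.Agent.H64.CC Pool.Agent.H2.NL Pool.Agent.H2.KM Pool.Agent.H64.EV Pool.Agent.H64.EK

namespace Pool.Agent.H34.EK

theorem pf_XPA (h1 : T_XPZ) (h2 : T_XPJ) (h3 : T_IDS) (h4 : T_OPG) : T_XPA := by
  intro K _ _ W hW m T P ρ hρ ζ hζ l
  -- the bijection of the basis of the power with the words
  obtain ⟨σ, hσ⟩ : ∃ σ : Fin (W.rk (P.pow l)) ≃ List.Vector (Fin (W.rk T)) l,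
      ∀ a, (σ a).1 = P.word l a := by
    refine ⟨Equiv.ofBijective (fun a => ⟨P.word l a, (P.word_range l _).1 ⟨a, rfl⟩⟩)
      ⟨fun a b h => P.word_inj l (congrArg Subtype.val h), fun v => ?_⟩, fun a => rfl⟩
    obtain ⟨a, ha⟩ := (P.word_range l v.1).2 v.2
    exact ⟨a, Subtype.ext ha⟩
  have hsub : ∀ t : List (Fin (W.rk T)) → K,
      (Matrix.of fun a b => opw P.form l t (P.word l a) (P.word l b)) =
        (op P.form l t).submatrix σ σ := by
    intro t
    ext a b
    show opw P.form l t (P.word l a) (P.word l b) = opw P.form l t (σ a).1 (σ b).1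
    rw [hσ, hσ]
  have hg : ∀ t ∈ P.toPowerData.classes l,
      (op P.form l t).submatrix σ σ ∈ W.cyc (P.pow l) (P.pow l) 0 := by
    intro t ht
    exact (P.graph l _).2 ⟨t, ht, (hsub t).symm⟩
  have hω1 : P.form * P.form⁻¹ = 1 := Matrix.mul_nonsing_inv _
    ((Matrix.isUnit_iff_isUnit_det _).1 P.form_unit)
  have hω2 : P.form⁻¹ * P.form = 1 := Matrix.nonsing_inv_mul _
    ((Matrix.isUnit_iff_isUnit_det _).1 P.form_unit)
  obtain ⟨s, hs⟩ : ∃ s, s = ρ * P.form⁻¹ := ⟨_, rfl⟩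
  have hsη : s * P.form = ρ := by rw [hs, Matrix.mul_assoc, hω2, Matrix.mul_one]
  have htwo : two s ∈ P.toPowerData.classes 1 := by
    obtain ⟨t, ht, hρt⟩ := (P.graph_one ρ).1 hρ
    have h5 : op P.form 1 t = op P.form 1 (two s) := by
      rw [(h4 K _ P.form P.form⁻¹ hω1 hω2 1).2.2.2.2 s, hsη]
      ext u v
      match u, v with
      | ⟨[a], _⟩, ⟨[b], _⟩ =>
        have h6 := congrFun (congrFun hρt a) b
        show opw P.form 1 t [a] [b] = (List.zipWith (fun a b => ρ a b) [a] [b]).prod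
        rw [List.zipWith_cons_cons, List.zipWith_nil_left, List.prod_cons, List.prod_nil, mul_one,
          h6]
        rfl
    exact P.calculus.congr 1 t (two s) ht fun w hw =>
      ((h4 K _ P.form P.form⁻¹ hω1 hω2 1).1 t (two s) h5 w hw).symm
  have hRc : (Jm ρ l).submatrix σ σ ∈ W.cyc (P.pow l) (P.pow l) 0 := by
    have h5 := hg (idt s l) (h3 K _ _ P.form P.form⁻¹ _ P.calculus s htwo l)
    rwa [(h4 K _ P.form P.form⁻¹ hω1 hω2 l).2.2.2.1 s, hsη] at h5
  have hpar : ∀ a b, P.form a b ≠ 0 → W.par T a = W.par T b := by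
    intro a b hab
    have h5 := P.form_deg a b hab
    unfold Weil.par
    have h6 : Odd (W.deg T a) ↔ Odd (W.deg T b) := by
      constructor
      · intro h7
        rcases Nat.even_or_odd (W.deg T b) with h8 | h8
        · exfalso
          obtain ⟨x, hx⟩ := h7
          obtain ⟨y, hy⟩ := h8
          omega
        · exact h8
      · intro h7
        rcases Nat.even_or_odd (W.deg T a) with h8 | h8
        · exfalso
          obtain ⟨x, hx⟩ := h7
          obtain ⟨y, hy⟩ := h8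
          omega
        · exact h8
    by_cases h7 : Odd (W.deg T a)
    · rw [decide_eq_true h7, decide_eq_true (h6.1 h7)]
    · rw [decide_eq_false h7, decide_eq_false (fun h8 => h7 (h6.2 h8))]
  obtain ⟨z, hz, hzS⟩ := (h1 K _ (W.par T) P.form P.form⁻¹ _ P.calculus hω1 hω2 hpar ζ hζ l).2.2.1
  have hSc : (Xp ζ (W.par T) (1 : Matrix (Fin (W.rk T)) (Fin (W.rk T)) K) l).submatrix σ σ ∈
      W.cyc (P.pow l) (P.pow l) 0 := by
    have h5 := hg z hz
    rwa [hzS] at h5
  have h6 := hW.calculus.comp_mem (P.pow l) (P.pow l) (P.pow l) 0 0 _ hSc _ hRc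
  rw [add_zero] at h6
  have h7 : W.comp ((Jm ρ l).submatrix σ σ)
      ((Xp ζ (W.par T) (1 : Matrix (Fin (W.rk T)) (Fin (W.rk T)) K) l).submatrix σ σ) =
      P.permPow ζ ρ l := by
    have h8 : W.comp ((Jm ρ l).submatrix σ σ)
        ((Xp ζ (W.par T) (1 : Matrix (Fin (W.rk T)) (Fin (W.rk T)) K) l).submatrix σ σ) =
        (Jm ρ l * Xp ζ (W.par T) (1 : Matrix (Fin (W.rk T)) (Fin (W.rk T)) K) l).submatrix σ σ :=
      Matrix.submatrix_mul_equiv _ _ σ σ σ
    rw [h8, (h2 K _ _ (Fin (W.rk T)) ζ l).1 (W.par T) ρ 1, Matrix.mul_one]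
    ext a b
    show xp ζ (W.par T) ρ (σ a).1 (σ b).1 = xp ζ (W.par T) ρ (P.word l a) (P.word l b)
    rw [hσ, hσ]
  rw [← h7]
  exact h6

end Pool.Agent.H34.EK
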